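import Pool.Agent.Helper15.FC.St4

set_option autoImplicit false

open Polynomial

namespace Pool.Agent.Helper73.FC

open Pool.Agent.Helper15.FC

section

variable {F : Type} [Field F]

/-- `X v' / v` as a power series -/
noncomputable def Lg (v : F[X]) : PowerSeries F :=
  PowerSeries.X * ((Polynomial.derivative v : F[X]) : PowerSeries F) * (v : PowerSeries F)⁻¹

/-- the combination `- sum_(1 ≤ j ≤ d) f_j coeff_j (X v' / v)` -/
noncomputable def LP (f v : F[X]) : F :=
  - ∑ j ∈ Finset.Icc 1 f.natDegree, f.coeff j * PowerSeries.coeff j (Lg v)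

private theorem cc {v : F[X]} (hv : v.coeff 0 ≠ 0) :
    PowerSeries.constantCoeff (v : PowerSeries F) ≠ 0 := by
  rwa [Polynomial.constantCoeff_coe]

private theorem Lg_mul_self {v : F[X]} (hv : v.coeff 0 ≠ 0) :
    Lg v * (v : PowerSeries F) =
      PowerSeries.X * ((Polynomial.derivative v : F[X]) : PowerSeries F) := by
  unfold Lg
  rw [mul_assoc, PowerSeries.inv_mul_cancel _ (cc hv), mul_one]

private theorem coe_ne {v : F[X]} (hv : v.coeff 0 ≠ 0) : (v : PowerSeries F) ≠ 0 := by
  intro h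
  have := cc hv
  rw [h, map_zero] at this
  exact this rfl

private theorem Lg_unique {v : F[X]} (hv : v.coeff 0 ≠ 0) {φ : PowerSeries F}
    (h : φ * (v : PowerSeries F) =
      PowerSeries.X * ((Polynomial.derivative v : F[X]) : PowerSeries F)) : Lg v = φ := by
  have h1 := Lg_mul_self hv
  rw [← h] at h1
  exact mul_right_cancel₀ (coe_ne hv) h1

private theorem Lg_mul {v w : F[X]} (hv : v.coeff 0 ≠ 0) (hw : w.coeff 0 ≠ 0) :
    Lg (v * w) = Lg v + Lg w := by
  have h0 : (v * w).coeff 0 ≠ 0 := by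
    rw [Polynomial.mul_coeff_zero]
    exact mul_ne_zero hv hw
  apply Lg_unique h0
  rw [Polynomial.derivative_mul, Polynomial.coe_add, Polynomial.coe_mul, Polynomial.coe_mul,
    Polynomial.coe_mul]
  have h1 := Lg_mul_self hv
  have h2 := Lg_mul_self hw
  linear_combination (w : PowerSeries F) * h1 + (v : PowerSeries F) * h2

private theorem LP_mul {f v w : F[X]} (hv : v.coeff 0 ≠ 0) (hw : w.coeff 0 ≠ 0) :
    LP f (v * w) = LP f v + LP f w := by
  unfold LP
  rw [Lg_mul hv hw, ← neg_add, ← Finset.sum_add_distrib]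
  congr 1
  refine Finset.sum_congr rfl fun j _ => ?_
  rw [map_add, mul_add]

private theorem Lg_congr {d : ℕ} {v w : F[X]} (hv : v.coeff 0 ≠ 0) (hw : w.coeff 0 ≠ 0)
    (h : X ^ (d + 1) ∣ v - w) : (PowerSeries.X : PowerSeries F) ^ (d + 1) ∣ Lg v - Lg w := by
  obtain ⟨g, hg⟩ := h
  have h1 := Lg_mul_self hv
  have h2 := Lg_mul_self hw
  have h3 : (v : PowerSeries F) - (w : PowerSeries F) =
      PowerSeries.X ^ (d + 1) * (g : PowerSeries F) := by
    rw [← Polynomial.coe_sub, hg, Polynomial.coe_mul, Polynomial.coe_pow, Polynomial.coe_X]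
  have h4 : ((Polynomial.derivative v : F[X]) : PowerSeries F) -
      ((Polynomial.derivative w : F[X]) : PowerSeries F) =
      ((d : PowerSeries F) + 1) * PowerSeries.X ^ d * (g : PowerSeries F) +
        PowerSeries.X ^ (d + 1) * ((Polynomial.derivative g : F[X]) : PowerSeries F) := by
    rw [← Polynomial.coe_sub, ← Polynomial.derivative_sub, hg, Polynomial.derivative_mul,
      Polynomial.derivative_X_pow, Polynomial.coe_add, Polynomial.coe_mul, Polynomial.coe_mul,
      Polynomial.coe_mul, Polynomial.coe_pow, Polynomial.coe_pow, Polynomial.coe_X]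
    simp only [Nat.add_sub_cancel, map_natCast, Polynomial.coe_add, Nat.cast_add, Nat.cast_one,
      Polynomial.coe_one]
    have : ((d : F[X]) : PowerSeries F) = (d : PowerSeries F) :=
      map_natCast (Polynomial.coeToPowerSeries.ringHom (R := F)) d
    simp [this]
  have h5 : (Lg v - Lg w) * (v : PowerSeries F) = PowerSeries.X ^ (d + 1) *
      (((d : PowerSeries F) + 1) * (g : PowerSeries F) +
        PowerSeries.X * ((Polynomial.derivative g : F[X]) : PowerSeries F) -
        Lg w * (g : PowerSeries F)) := by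
    linear_combination h1 - h2 - Lg w * h3 + PowerSeries.X * h4
  have h6 : Lg v - Lg w = (Lg v - Lg w) * (v : PowerSeries F) * (v : PowerSeries F)⁻¹ := by
    rw [mul_assoc, PowerSeries.mul_inv_cancel _ (cc hv), mul_one]
  rw [h6, h5, mul_assoc]
  exact dvd_mul_right _ _

private theorem LP_congr {f v w : F[X]} (hv : v.coeff 0 ≠ 0) (hw : w.coeff 0 ≠ 0)
    (h : X ^ (f.natDegree + 1) ∣ v - w) : LP f v = LP f w := by
  have h1 := Lg_congr hv hw h
  rw [PowerSeries.X_pow_dvd_iff] at h1
  unfold LP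
  congr 1
  refine Finset.sum_congr rfl fun j hj => ?_
  have h2 := h1 j (Nat.lt_succ_of_le (Finset.mem_Icc.1 hj).2)
  rw [map_sub, sub_eq_zero] at h2
  rw [h2]

private theorem Lg_lin (x : F) : Lg (1 - C x * X : F[X]) =
    PowerSeries.mk (fun j => if j = 0 then 0 else - x ^ j) := by
  apply Lg_unique (by simp)
  have e1 : ((1 - C x * X : F[X]) : PowerSeries F) =
      1 - PowerSeries.C x * PowerSeries.X := by
    rw [Polynomial.coe_sub, Polynomial.coe_one, Polynomial.coe_mul, Polynomial.coe_C,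
      Polynomial.coe_X]
  have e2 : ((Polynomial.derivative (1 - C x * X : F[X]) : F[X]) : PowerSeries F) =
      - PowerSeries.C x := by
    rw [Polynomial.derivative_sub, Polynomial.derivative_one, Polynomial.derivative_C_mul,
      Polynomial.derivative_X, mul_one, zero_sub, Polynomial.coe_neg, Polynomial.coe_C]
  rw [e1, e2, mul_sub, mul_one]
  ext n
  rw [map_sub]
  have e3 : (PowerSeries.mk (fun j => if j = 0 then (0 : F) else - x ^ j) *
      (PowerSeries.C x * PowerSeries.X) : PowerSeries F) =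
      PowerSeries.C x * (PowerSeries.mk (fun j => if j = 0 then (0 : F) else - x ^ j)) *
        PowerSeries.X := by ring
  have e4 : (PowerSeries.X * - PowerSeries.C x : PowerSeries F) =
      (- PowerSeries.C x) * PowerSeries.X := by ring
  rw [e3, e4]
  rcases n with _ | n
  · rw [PowerSeries.coeff_zero_mul_X, PowerSeries.coeff_zero_mul_X, PowerSeries.coeff_mk]
    simp
  · rw [PowerSeries.coeff_succ_mul_X, PowerSeries.coeff_succ_mul_X, PowerSeries.coeff_C_mul,
      PowerSeries.coeff_mk, PowerSeries.coeff_mk, map_neg, PowerSeries.coeff_C]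
    rcases n with _ | n
    · simp
    · simp only [Nat.succ_ne_zero, if_false]
      ring

private theorem LP_lin (f : F[X]) (x : F) :
    LP f (1 - C x * X) = f.eval x - f.coeff 0 := by
  unfold LP
  rw [Lg_lin]
  have h1 : f.eval x = ∑ j ∈ Finset.range (f.natDegree + 1), f.coeff j * x ^ j :=
    Polynomial.eval_eq_sum_range x
  have h2 : Finset.range (f.natDegree + 1) = insert 0 (Finset.Icc 1 f.natDegree) := by
    ext j
    simp only [Finset.mem_range, Finset.mem_insert, Finset.mem_Icc]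
    omega
  rw [h1, h2, Finset.sum_insert (by simp), ← Finset.sum_neg_distrib]
  simp only [pow_zero, mul_one, add_sub_cancel_left]
  refine Finset.sum_congr rfl fun j hj => ?_
  rw [PowerSeries.coeff_mk, if_neg (by have := (Finset.mem_Icc.1 hj).1; omega)]
  ring

private theorem LP_top (f : F[X]) (c : F) (hd : 1 ≤ f.natDegree) :
    LP f (1 - C c * X ^ f.natDegree) = f.leadingCoeff * f.natDegree * c := by
  set d := f.natDegree with hdd
  have h0 : (1 - C c * X ^ d : F[X]).coeff 0 ≠ 0 := by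
    rw [Polynomial.coeff_sub, Polynomial.coeff_C_mul_X_pow, if_neg (by omega)]
    simp
  have h1 := Lg_mul_self h0
  have e1 : ((1 - C c * X ^ d : F[X]) : PowerSeries F) =
      1 - PowerSeries.C c * PowerSeries.X ^ d := by
    rw [Polynomial.coe_sub, Polynomial.coe_one, Polynomial.coe_mul, Polynomial.coe_C,
      Polynomial.coe_pow, Polynomial.coe_X]
  have e2 : PowerSeries.X * ((Polynomial.derivative (1 - C c * X ^ d : F[X]) : F[X]) :
      PowerSeries F) = - (PowerSeries.C (c * (d : F)) * PowerSeries.X ^ d) := by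
    have e3 : (Polynomial.derivative (1 - C c * X ^ d : F[X]) : F[X]) =
        - (C (c * (d : F)) * X ^ (d - 1)) := by
      rw [Polynomial.derivative_sub, Polynomial.derivative_one, Polynomial.derivative_C_mul_X_pow,
        zero_sub]
    rw [e3, Polynomial.coe_neg, Polynomial.coe_mul, Polynomial.coe_C, Polynomial.coe_pow,
      Polynomial.coe_X]
    have e5 : (PowerSeries.X : PowerSeries F) ^ d = PowerSeries.X * PowerSeries.X ^ (d - 1) := by
      rw [← pow_succ']
      congr 1
      omega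
    rw [e5]
    ring
  rw [e1, e2] at h1
  -- coefficients
  have h2 : Lg (1 - C c * X ^ d : F[X]) = PowerSeries.C c *
      Lg (1 - C c * X ^ d : F[X]) * PowerSeries.X ^ d -
      PowerSeries.C (c * (d : F)) * PowerSeries.X ^ d := by
    linear_combination h1
  have h3 : ∀ j, j < d → PowerSeries.coeff j (Lg (1 - C c * X ^ d : F[X])) = 0 := by
    intro j hj
    rw [h2, map_sub, PowerSeries.coeff_mul_X_pow', PowerSeries.coeff_mul_X_pow',
      if_neg (by omega), if_neg (by omega), sub_zero]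
  have h4 : PowerSeries.coeff d (Lg (1 - C c * X ^ d : F[X])) = - (c * d) := by
    rw [h2, map_sub, PowerSeries.coeff_mul_X_pow', PowerSeries.coeff_mul_X_pow',
      if_pos le_rfl, if_pos le_rfl, Nat.sub_self, PowerSeries.coeff_C_mul, h3 0 (by omega),
      mul_zero, zero_sub, PowerSeries.coeff_C, if_pos rfl]
  unfold LP
  rw [← hdd, Finset.sum_eq_single d]
  · rw [h4, hdd, Polynomial.coeff_natDegree]
    ring
  · intro j hj hjd
    rw [h3 j (lt_of_le_of_ne (Finset.mem_Icc.1 hj).2 hjd), mul_zero]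
  · intro h
    exact absurd (Finset.mem_Icc.2 ⟨hd, le_rfl⟩) h

/-! ### units of `TN F N` -/

private theorem isUnit_mk {N : ℕ} {v : F[X]} (hv : v.coeff 0 ≠ 0) :
    IsUnit (AdjoinRoot.mk (X ^ (N + 1) : F[X]) v) := by
  have h1 : IsCoprime v X := by
    obtain ⟨q, hq⟩ : X ∣ v - C (v.coeff 0) := by
      rw [X_dvd_iff]
      simp
    refine ⟨C (v.coeff 0)⁻¹, - C (v.coeff 0)⁻¹ * q, ?_⟩
    have h2 : C (v.coeff 0)⁻¹ * C (v.coeff 0) = (1 : F[X]) := by
      rw [← C_mul, inv_mul_cancel₀ hv, C_1]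
    linear_combination C (v.coeff 0)⁻¹ * hq + h2
  obtain ⟨a, b, hab⟩ := IsCoprime.pow_right (n := N + 1) h1
  refine IsUnit.of_mul_eq_one (AdjoinRoot.mk (X ^ (N + 1) : F[X]) a) ?_
  have h3 := congrArg (AdjoinRoot.mk (X ^ (N + 1) : F[X])) hab
  rw [map_add, map_mul, map_mul, AdjoinRoot.mk_self, mul_zero, add_zero, map_one] at h3
  rw [mul_comm, h3]

private theorem coeff_of_isUnit {N : ℕ} {v : F[X]}
    (hv : IsUnit (AdjoinRoot.mk (X ^ (N + 1) : F[X]) v)) : v.coeff 0 ≠ 0 := by
  obtain ⟨u, hu⟩ := hv.exists_right_inv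
  obtain ⟨w, rfl⟩ := AdjoinRoot.mk_surjective u
  rw [← map_mul, ← map_one (AdjoinRoot.mk (X ^ (N + 1) : F[X])), AdjoinRoot.mk_eq_mk] at hu
  obtain ⟨g, hg⟩ := hu
  intro h0
  have h1 := congrArg (fun p : F[X] => p.coeff 0) hg
  simp only [Polynomial.coeff_sub, Polynomial.mul_coeff_zero, h0, zero_mul,
    Polynomial.coeff_one_zero, Polynomial.coeff_X_pow] at h1
  simp at h1

/-- a representative -/
private noncomputable def rp {N : ℕ} (u : TN F N) : F[X] :=
  Classical.choose (AdjoinRoot.mk_surjective u)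

private theorem mk_rp {N : ℕ} (u : TN F N) : AdjoinRoot.mk (X ^ (N + 1) : F[X]) (rp u) = u :=
  Classical.choose_spec (AdjoinRoot.mk_surjective u)

private theorem rp_ne {N : ℕ} (u : (TN F N)ˣ) : (rp (u : TN F N)).coeff 0 ≠ 0 := by
  apply coeff_of_isUnit (N := N)
  rw [mk_rp]
  exact u.isUnit

private theorem LP_mk {f v w : F[X]} (hv : v.coeff 0 ≠ 0) (hw : w.coeff 0 ≠ 0)
    (h : AdjoinRoot.mk (X ^ (f.natDegree + 1) : F[X]) v =
      AdjoinRoot.mk (X ^ (f.natDegree + 1) : F[X]) w) : LP f v = LP f w := by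
  rw [AdjoinRoot.mk_eq_mk] at h
  exact LP_congr hv hw h

/-- the additive function on the units -/
private noncomputable def hom (f : F[X]) : (TN F f.natDegree)ˣ →* Multiplicative F where
  toFun u := Multiplicative.ofAdd (LP f (rp (u : TN F f.natDegree)))
  map_one' := by
    have h1 : LP f (rp ((1 : (TN F f.natDegree)ˣ) : TN F f.natDegree)) = LP f 1 := by
      apply LP_mk (rp_ne 1) (by simp)
      rw [mk_rp, map_one, Units.val_one]
    have h2 : LP f (1 : F[X]) = 0 := by
      have := LP_mul (f := f) (v := 1) (w := 1) (by simp) (by simp)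
      rw [mul_one] at this
      exact left_eq_add.1 this
    rw [h1, h2]
    rfl
  map_mul' u v := by
    rw [← ofAdd_add, ← LP_mul (rp_ne u) (rp_ne v)]
    congr 1
    apply LP_mk (rp_ne _)
    · rw [Polynomial.mul_coeff_zero]
      exact mul_ne_zero (rp_ne u) (rp_ne v)
    · rw [mk_rp, map_mul, mk_rp, mk_rp, Units.val_mul]

/-- the character `v ↦ ψ(sum_j f_j p_j(v))` -/
noncomputable def xiA (ψ : AddChar F ℂ) (f : F[X]) : MulChar (TN F f.natDegree) ℂ :=
  MulChar.ofUnitHom ((ψ.toMonoidHom.comp (hom f)).toHomUnits)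

theorem xiA_apply (ψ : AddChar F ℂ) (f : F[X]) {v : F[X]} (hv : v.coeff 0 ≠ 0) :
    xiA ψ f (AdjoinRoot.mk (X ^ (f.natDegree + 1) : F[X]) v) = ψ (LP f v) := by
  obtain ⟨u, hu⟩ := isUnit_mk (N := f.natDegree) hv
  rw [← hu]
  unfold xiA
  rw [MulChar.ofUnitHom_coe, MonoidHom.coe_toHomUnits]
  change ψ (LP f (rp (u : TN F f.natDegree))) = ψ (LP f v)
  congr 1
  apply LP_mk (rp_ne u) hv
  rw [mk_rp, hu]

theorem xiA_lin (ψ : AddChar F ℂ) (f : F[X]) (x : F) :
    xiA ψ f (AdjoinRoot.mk (X ^ (f.natDegree + 1) : F[X]) (1 - C x * X)) =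
      ψ (f.eval x - f.coeff 0) := by
  rw [xiA_apply ψ f (by simp), LP_lin]

theorem xiA_NTx (ψ : AddChar F ℂ) (f : F[X]) (hψ : ψ ≠ 1) (hf : (f.natDegree : F) ≠ 0) :
    NTx (xiA ψ f) := by
  have hd : 1 ≤ f.natDegree := by
    rcases Nat.eq_zero_or_pos f.natDegree with h | h
    · rw [h] at hf
      exact absurd Nat.cast_zero hf
    · exact h
  have hl : f.leadingCoeff ≠ 0 := by
    rw [Polynomial.leadingCoeff_ne_zero]
    rintro rfl
    simp at hd
  obtain ⟨y, hy⟩ := AddChar.ne_one_iff.1 hψ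
  have h0 : (1 - C (y / (f.leadingCoeff * f.natDegree)) * X ^ f.natDegree : F[X]).coeff 0 = 1 := by
    rw [Polynomial.coeff_sub, Polynomial.coeff_C_mul_X_pow, if_neg (by omega)]
    simp
  refine ⟨1 - C (y / (f.leadingCoeff * f.natDegree)) * X ^ f.natDegree, h0, ?_⟩
  rw [xiA_apply ψ f (by rw [h0]; exact one_ne_zero), LP_top f _ hd,
    mul_div_cancel₀ _ (mul_ne_zero hl hf)]
  exact hy

end

theorem hWAC (hWS1 : StWS1) : StWAC := by
  intro F _ _ ψ f hψ hf
  have h1 := hWS1 F 1 f.natDegree 1 (xiA ψ f) monic_one (Or.inl (xiA_NTx ψ f hψ hf))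
  rw [natDegree_one, zero_add] at h1
  have hsub : ∀ y : AdjoinRoot (1 : F[X]), IsUnit y := by
    intro y
    obtain ⟨g, rfl⟩ := AdjoinRoot.mk_surjective y
    have : AdjoinRoot.mk (1 : F[X]) g = 1 := by
      rw [← map_one (AdjoinRoot.mk (1 : F[X])), AdjoinRoot.mk_eq_mk]
      exact one_dvd _
    rw [this]
    exact isUnit_one
  have h2 : ∑ x : F, ψ (f.eval x) = ψ (f.coeff 0) *
      ∑ x : F, (1 : MulChar (AdjoinRoot (1 : F[X])) ℂ) (AdjoinRoot.mk 1 (X - C x)) *
        xiA ψ f (AdjoinRoot.mk (X ^ (f.natDegree + 1) : F[X]) (1 - C x * X)) := by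
    rw [Finset.mul_sum]
    refine Finset.sum_congr rfl fun x _ => ?_
    rw [MulChar.one_apply (hsub _), one_mul, xiA_lin, ← AddChar.map_add_eq_mul]
    congr 1
    ring
  rw [h2, norm_mul, AddChar.norm_apply, one_mul]
  exact h1

end Pool.Agent.Helper73.FC
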