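import Pool.Agent.Helper15.FC.St2

set_option autoImplicit false

open Polynomial

namespace Pool.Agent.Helper73.FC

open Pool.Agent.Helper15.FC

/-! ### rearrangements -/

private theorem exists_perm {l : ℕ} {α : Type} (p p' : Fin l → α)
    (h : (Finset.univ : Finset (Fin l)).val.map p' = (Finset.univ : Finset (Fin l)).val.map p) :
    ∃ σ : Equiv.Perm (Fin l), p' = p ∘ σ := by
  classical
  have hc : ∀ x : α, Fintype.card {i : Fin l // p' i = x} = Fintype.card {i : Fin l // p i = x} := by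
    intro x
    have h1 := congrArg (Multiset.count x) h
    rw [Multiset.count_map, Multiset.count_map] at h1
    rw [Fintype.card_subtype, Fintype.card_subtype]
    have e1 : ∀ g : Fin l → α, (Finset.univ.filter (fun i : Fin l => g i = x)).card =
        Multiset.card ((Finset.univ : Finset (Fin l)).val.filter (fun i => x = g i)) := by
      intro g
      rw [Finset.card_def, Finset.filter_val]
      congr 1
      exact Multiset.filter_congr (fun i _ => eq_comm)
    rw [e1, e1]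
    exact h1
  let σ : Equiv.Perm (Fin l) :=
    ((Equiv.sigmaFiberEquiv p').symm.trans
      (Equiv.sigmaCongrRight (fun x => Fintype.equivOfCardEq (hc x)))).trans
      (Equiv.sigmaFiberEquiv p)
  refine ⟨σ, ?_⟩
  funext i
  have h2 : p (σ i) = p' i := by
    have := ((Fintype.equivOfCardEq (hc (p' i))) ⟨i, rfl⟩).2
    exact this
  exact h2.symm

private theorem perm_of_prod {F : Type} [Field F] {l : ℕ} (p p' : Fin l → F[X])
    (hp : ∀ i, (p i).Monic ∧ Irreducible (p i)) (hp' : ∀ i, (p' i).Monic ∧ Irreducible (p' i))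
    (h : ∏ i, p' i = ∏ i, p i) : ∃ σ : Equiv.Perm (Fin l), p' = p ∘ σ := by
  apply exists_perm
  have h1 : Multiset.Rel Associated ((Finset.univ : Finset (Fin l)).val.map p')
      ((Finset.univ : Finset (Fin l)).val.map p) := by
    apply UniqueFactorizationMonoid.factors_unique
    · intro x hx
      obtain ⟨i, -, rfl⟩ := Multiset.mem_map.1 hx
      exact (hp' i).2
    · intro x hx
      obtain ⟨i, -, rfl⟩ := Multiset.mem_map.1 hx
      exact (hp i).2
    · have e1 : ∀ g : Fin l → F[X], ((Finset.univ : Finset (Fin l)).val.map g).prod =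
          ∏ i, g i := fun g => rfl
      rw [e1, e1, h]
      exact Associated.refl _
  rw [← Multiset.rel_eq]
  refine h1.mono ?_
  intro x hx y hy hxy
  obtain ⟨i, -, rfl⟩ := Multiset.mem_map.1 hx
  obtain ⟨j, -, rfl⟩ := Multiset.mem_map.1 hy
  exact eq_of_monic_of_associated (hp' i).1 (hp j).1 hxy

open scoped Classical in
private theorem card_same {F : Type} [Field F] {l : ℕ} (T : Finset (Fin l → F[X]))
    (hT : ∀ p ∈ T, ∀ i, (p i).Monic ∧ Irreducible (p i)) (p : Fin l → F[X]) (hp : p ∈ T) :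
    (T.filter (fun p' => ∏ i, p' i = ∏ i, p i)).card ≤ l.factorial := by
  have h1 : T.filter (fun p' => ∏ i, p' i = ∏ i, p i) ⊆
      (Finset.univ : Finset (Equiv.Perm (Fin l))).image
        (fun σ : Equiv.Perm (Fin l) => p ∘ (σ : Fin l → Fin l)) := by
    intro p' hp'
    rw [Finset.mem_filter] at hp'
    obtain ⟨σ, hσ⟩ := perm_of_prod p p' (hT p hp) (hT p' hp'.1) hp'.2
    exact Finset.mem_image.2 ⟨σ, Finset.mem_univ _, hσ.symm⟩
  refine (Finset.card_le_card h1).trans (Finset.card_image_le.trans ?_)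
  rw [Finset.card_univ, Fintype.card_perm, Fintype.card_fin]

/-! ### reverse -/

private theorem reverse_reverse' {F : Type} [Field F] {f : F[X]} (hf : f.coeff 0 ≠ 0) :
    f.reverse.reverse = f := by
  have h1 : f.reverse.natDegree = f.natDegree := by
    rw [reverse_natDegree, natTrailingDegree_eq_zero.2 (Or.inr hf), Nat.sub_zero]
  unfold reverse
  unfold reverse at h1
  rw [h1, reflect_reflect]

private theorem reverse_prod {F : Type} [Field F] {l : ℕ} (p : Fin l → F[X]) :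
    (∏ i, p i).reverse = ∏ i, (p i).reverse := by
  classical
  have : ∀ s : Finset (Fin l), (∏ i ∈ s, p i).reverse = ∏ i ∈ s, (p i).reverse := by
    intro s
    induction s using Finset.induction_on with
    | empty =>
      rw [Finset.prod_empty, Finset.prod_empty]
      have : (1 : F[X]) = C 1 := by simp
      rw [this, reverse_C]
    | insert a s ha ih =>
      rw [Finset.prod_insert ha, Finset.prod_insert ha, reverse_mul_of_domain, ih]
  exact this _

private theorem mk_inj {F : Type} [Field F] {N : ℕ} {f g : F[X]} (hf : f.coeff 0 ≠ 0)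
    (hg : g.coeff 0 ≠ 0) (hfd : f.natDegree ≤ N) (hgd : g.natDegree ≤ N)
    (h : AdjoinRoot.mk (X ^ (N + 1) : F[X]) f.reverse =
      AdjoinRoot.mk (X ^ (N + 1) : F[X]) g.reverse) : f = g := by
  rw [AdjoinRoot.mk_eq_mk] at h
  have h2 : f.reverse - g.reverse = 0 := by
    refine eq_zero_of_dvd_of_natDegree_lt h ?_
    rw [natDegree_X_pow]
    have := natDegree_sub_le f.reverse g.reverse
    have h3 := reverse_natDegree_le f
    have h4 := reverse_natDegree_le g
    have h5 : max f.reverse.natDegree g.reverse.natDegree ≤ N :=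
      max_le (h3.trans hfd) (h4.trans hgd)
    omega
  have h3 : f.reverse = g.reverse := sub_eq_zero.1 h2
  rw [← reverse_reverse' hf, ← reverse_reverse' hg, h3]

private theorem coeff_ne {F : Type} [Field F] {P : F[X]} (h1 : P.Monic) (h2 : Irreducible P)
    (h3 : P ≠ X) : P.coeff 0 ≠ 0 := by
  intro h
  rw [← X_dvd_iff] at h
  exact h3 (eq_of_monic_of_associated monic_X h1 (irreducible_X.associated_of_dvd h2 h)).symm

/-! ### characters -/

private theorem chi_norm {R : Type} [CommRing R] [Finite R] (χ : MulChar R ℂ) (x : R) :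
    ‖χ x‖ ≤ 1 := by
  by_cases hx : IsUnit x
  · obtain ⟨u, rfl⟩ := hx
    cases nonempty_fintype Rˣ
    have h := Complex.norm_eq_one_of_mem_rootsOfUnity (χ.apply_mem_rootsOfUnity u)
    exact h.le
  · rw [χ.map_nonunit hx, norm_zero]
    exact zero_le_one

private theorem uN_nonneg (F : Type) [Field F] [Fintype F] (N : ℕ) : 0 ≤ uN F N := by
  unfold uN
  have h1 : (1 : ℝ) ≤ (Fintype.card F : ℝ) := by
    exact_mod_cast Fintype.card_pos
  exact mul_nonneg (by linarith) (pow_nonneg (by linarith) _)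

theorem hMOM (hORT : StORT) : StMOM := by
  classical
  intro F _ _ r N B l χ PP a hr hlB hPP
  have : Finite (AdjoinRoot r) := finite_AR hr
  set T : Finset (Fin l → F[X]) := Fintype.piFinset (fun _ : Fin l => PP) with hTdef
  have hTm : ∀ p ∈ T, ∀ i, p i ∈ PP := fun p hp i => Fintype.mem_piFinset.1 hp i
  have hTi : ∀ p ∈ T, ∀ i, (p i).Monic ∧ Irreducible (p i) := fun p hp i =>
    ⟨(hPP _ (hTm p hp i)).1, (hPP _ (hTm p hp i)).2.1⟩
  -- the products
  let f : (Fin l → F[X]) → F[X] := fun p => ∏ i, p i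
  have hf0 : ∀ p ∈ T, (f p).coeff 0 ≠ 0 := by
    intro p hp
    have : (f p).coeff 0 = ∏ i, (p i).coeff 0 := by
      change (∏ i, p i).coeff 0 = _
      rw [coeff_zero_eq_eval_zero, eval_prod]
      exact Finset.prod_congr rfl (fun i _ => (coeff_zero_eq_eval_zero _).symm)
    rw [this]
    exact Finset.prod_ne_zero_iff.2 (fun i _ => coeff_ne (hTi p hp i).1 (hTi p hp i).2
      (hPP _ (hTm p hp i)).2.2.1)
  have hfd : ∀ p ∈ T, (f p).natDegree ≤ N := by
    intro p hp
    refine le_trans (natDegree_prod_le _ _) (le_trans ?_ hlB)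
    calc ∑ i, (p i).natDegree ≤ ∑ _i : Fin l, B :=
          Finset.sum_le_sum (fun i _ => (hPP _ (hTm p hp i)).2.2.2)
      _ = l * B := by simp
  have hfm : ∀ p ∈ T, (f p).Monic := fun p hp =>
    monic_prod_of_monic _ _ (fun i _ => (hTi p hp i).1)
  have hrc : ∀ p ∈ T, (f p).reverse.coeff 0 ≠ 0 := by
    intro p hp
    rw [coeff_zero_reverse, (hfm p hp).leadingCoeff]
    exact one_ne_zero
  let A : (Fin l → F[X]) → ℂ := fun p => (∏ i, a (p i)) * χ (AdjoinRoot.mk r (f p))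
  let ev : MulChar (TN F N) ℂ → (Fin l → F[X]) → ℂ := fun ξ p =>
    ξ (AdjoinRoot.mk (X ^ (N + 1) : F[X]) (f p).reverse)
  have hA : ∀ p, ‖A p‖ ≤ ∏ i, ‖a (p i)‖ := by
    intro p
    change ‖(∏ i, a (p i)) * χ (AdjoinRoot.mk r (f p))‖ ≤ _
    rw [norm_mul, norm_prod]
    exact mul_le_of_le_one_right (Finset.prod_nonneg fun i _ => norm_nonneg _) (chi_norm χ _)
  have hexp : ∀ ξ : MulChar (TN F N) ℂ, (∑ P ∈ PP, a P * Hk r N χ ξ P) ^ l =
      ∑ p ∈ T, A p * ev ξ p := by
    intro ξ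
    have h1 : (∑ P ∈ PP, a P * Hk r N χ ξ P) ^ l =
        ∏ _i : Fin l, ∑ P ∈ PP, a P * Hk r N χ ξ P := by
      rw [Finset.prod_const, Finset.card_univ, Fintype.card_fin]
    rw [h1, Finset.prod_univ_sum]
    refine Finset.sum_congr rfl (fun p _ => ?_)
    change ∏ i, (a (p i) * (χ (AdjoinRoot.mk r (p i)) *
      ξ (AdjoinRoot.mk (X ^ (N + 1) : F[X]) (p i).reverse))) =
      ((∏ i, a (p i)) * χ (AdjoinRoot.mk r (∏ i, p i))) *
        ξ (AdjoinRoot.mk (X ^ (N + 1) : F[X]) (∏ i, p i).reverse)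
    rw [reverse_prod, map_prod, map_prod, map_prod, map_prod, Finset.prod_mul_distrib,
      Finset.prod_mul_distrib]
    ring
  -- orthogonality
  have horth : ∀ p ∈ T, ∀ p' ∈ T, ∑ ξ ∈ allF (MulChar (TN F N) ℂ),
      ev ξ p * (starRingEnd ℂ) (ev ξ p') = if f p' = f p then (uN F N : ℂ) else 0 := by
    intro p hp p' hp'
    obtain ⟨o1, o2⟩ := hORT F N (f p).reverse (f p').reverse (hrc p hp) (hrc p' hp')
    split_ifs with h
    · exact o1 (by rw [h])
    · refine o2 (fun h2 => h ?_)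
      exact (mk_inj (hf0 p hp) (hf0 p' hp') (hfd p hp) (hfd p' hp') h2).symm
  have hZ : ((∑ ξ ∈ allF (MulChar (TN F N) ℂ),
      ‖∑ P ∈ PP, a P * Hk r N χ ξ P‖ ^ (2 * l) : ℝ) : ℂ) =
      ∑ p ∈ T, ∑ p' ∈ T, (A p * (starRingEnd ℂ) (A p')) *
        (if f p' = f p then (uN F N : ℂ) else 0) := by
    have h1 : ∀ ξ : MulChar (TN F N) ℂ,
        ((‖∑ P ∈ PP, a P * Hk r N χ ξ P‖ ^ (2 * l) : ℝ) : ℂ) =
        ∑ p ∈ T, ∑ p' ∈ T, (A p * (starRingEnd ℂ) (A p')) *
          (ev ξ p * (starRingEnd ℂ) (ev ξ p')) := by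
      intro ξ
      rw [mul_comm 2 l, pow_mul, ← norm_pow, hexp ξ]
      have h2 : ((‖∑ p ∈ T, A p * ev ξ p‖ ^ 2 : ℝ) : ℂ) =
          (∑ p ∈ T, A p * ev ξ p) * (starRingEnd ℂ) (∑ p ∈ T, A p * ev ξ p) := by
        rw [Complex.mul_conj, Complex.normSq_eq_norm_sq]
      rw [h2, map_sum, Finset.sum_mul_sum]
      refine Finset.sum_congr rfl (fun p _ => Finset.sum_congr rfl (fun p' _ => ?_))
      rw [map_mul]
      ring
    rw [Complex.ofReal_sum, Finset.sum_congr rfl (fun ξ _ => h1 ξ), Finset.sum_comm]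
    refine Finset.sum_congr rfl (fun p hp => ?_)
    rw [Finset.sum_comm]
    refine Finset.sum_congr rfl (fun p' hp' => ?_)
    rw [← Finset.mul_sum, horth p hp p' hp']
  -- the bound
  have hu := uN_nonneg F N
  have hle : (∑ ξ ∈ allF (MulChar (TN F N) ℂ),
      ‖∑ P ∈ PP, a P * Hk r N χ ξ P‖ ^ (2 * l) : ℝ) ≤
      ∑ p ∈ T, ∑ p' ∈ T, (‖A p‖ * ‖A p'‖) * (if f p' = f p then uN F N else 0) := by
    have h1 : (∑ ξ ∈ allF (MulChar (TN F N) ℂ),
        ‖∑ P ∈ PP, a P * Hk r N χ ξ P‖ ^ (2 * l) : ℝ) =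
        ‖((∑ ξ ∈ allF (MulChar (TN F N) ℂ),
          ‖∑ P ∈ PP, a P * Hk r N χ ξ P‖ ^ (2 * l) : ℝ) : ℂ)‖ := by
      rw [Complex.norm_real, Real.norm_eq_abs, abs_of_nonneg]
      exact Finset.sum_nonneg (fun ξ _ => pow_nonneg (norm_nonneg _) _)
    rw [h1, hZ]
    refine (norm_sum_le _ _).trans (Finset.sum_le_sum fun p _ => ?_)
    refine (norm_sum_le _ _).trans (Finset.sum_le_sum fun p' _ => ?_)
    rw [norm_mul, norm_mul, RCLike.norm_conj]
    refine le_of_eq ?_
    split_ifs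
    · rw [Complex.norm_real, Real.norm_eq_abs, abs_of_nonneg hu]
    · rw [norm_zero]
  refine hle.trans ?_
  have h3 : ∑ p ∈ T, ∑ p' ∈ T, (‖A p‖ * ‖A p'‖) * (if f p' = f p then uN F N else 0) ≤
      ∑ p ∈ T, ∑ p' ∈ T, (‖A p‖ ^ 2) * (if f p' = f p then uN F N else 0) := by
    have h4 : ∑ p ∈ T, ∑ p' ∈ T, (‖A p‖ * ‖A p'‖) * (if f p' = f p then uN F N else 0) ≤
        ∑ p ∈ T, ∑ p' ∈ T, (‖A p‖ ^ 2 / 2 + ‖A p'‖ ^ 2 / 2) *
          (if f p' = f p then uN F N else 0) := by
      refine Finset.sum_le_sum fun p _ => Finset.sum_le_sum fun p' _ => ?_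
      refine mul_le_mul_of_nonneg_right ?_ ?_
      · nlinarith [sq_nonneg (‖A p‖ - ‖A p'‖)]
      · split_ifs
        · exact hu
        · exact le_rfl
    refine h4.trans (le_of_eq ?_)
    have h5 : ∑ p ∈ T, ∑ p' ∈ T, (‖A p'‖ ^ 2 / 2) * (if f p' = f p then uN F N else 0) =
        ∑ p ∈ T, ∑ p' ∈ T, (‖A p‖ ^ 2 / 2) * (if f p' = f p then uN F N else 0) := by
      rw [Finset.sum_comm]
      refine Finset.sum_congr rfl fun p _ => Finset.sum_congr rfl fun p' _ => ?_
      simp only [eq_comm]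
    simp only [add_mul, Finset.sum_add_distrib]
    rw [h5, ← Finset.sum_add_distrib]
    refine Finset.sum_congr rfl fun p _ => ?_
    rw [← Finset.sum_add_distrib]
    refine Finset.sum_congr rfl fun p' _ => ?_
    ring
  refine h3.trans ?_
  have h6 : ∀ p ∈ T, ∑ p' ∈ T, (‖A p‖ ^ 2) * (if f p' = f p then uN F N else 0) ≤
      (∏ i, ‖a (p i)‖ ^ 2) * (uN F N * (l.factorial : ℝ)) := by
    intro p hp
    rw [← Finset.mul_sum, ← Finset.sum_filter, Finset.sum_const, nsmul_eq_mul]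
    refine mul_le_mul ?_ ?_ ?_ ?_
    · rw [Finset.prod_pow]
      exact pow_le_pow_left₀ (norm_nonneg _) (hA p) 2
    · rw [mul_comm]
      refine mul_le_mul_of_nonneg_left ?_ hu
      exact_mod_cast card_same T hTi p hp
    · exact mul_nonneg (Nat.cast_nonneg _) hu
    · exact Finset.prod_nonneg fun i _ => sq_nonneg _
  refine (Finset.sum_le_sum h6).trans (le_of_eq ?_)
  rw [← Finset.sum_mul]
  have h7 : (∑ P ∈ PP, ‖a P‖ ^ 2) ^ l = ∑ p ∈ T, ∏ i, ‖a (p i)‖ ^ 2 := by
    have h8 : (∑ P ∈ PP, ‖a P‖ ^ 2) ^ l = ∏ _i : Fin l, ∑ P ∈ PP, ‖a P‖ ^ 2 := by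
      rw [Finset.prod_const, Finset.card_univ, Fintype.card_fin]
    rw [h8, Finset.prod_univ_sum]
  rw [h7]
  ring

end Pool.Agent.Helper73.FC
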